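import Pool.Agent.Q45.ML.Par

/-!
# The root number `ε(π) = -1` from smoothed Satake sums

Let `F` be an imaginary quadratic field (any number field below), `π` a regular algebraic cuspidal representation of
`GL_n(𝔸_F)` with `π^∨ ≃ π^c |·|^{-1}`, `α v j` its local parameters (padded by zeros at ramified places),
`|α v j| ≤ q_v^{-1/2}`, `L` its entire `L`-function, and `Λ(s) = A(s) L(s)` the completed one, `A` analytic and nonzero at
`0`, with `Λ(s) = ε(s) Λ(-s)` near `0`, `ε` continuous with `ε(0) = ±1`. With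

`S(T) = ∑_v ∑_{k ≥ 1} (∑_j (α v j)^k / k) e^{iγ k log q_v/T} / Γ(1 + k log q_v/T)`,   `γ > π/2`,

the sign `ε(0)` is `-1` if and only if `-Re S(T)/log T` approaches the odd integers, along one sequence `T → ∞`, and `+1`
if and only if it approaches the even integers. So Q1 for `π` says: if `-Re S(T)/log T` approaches the odd integers along
one sequence, then `H¹_f ≠ 0`.
-/

set_option autoImplicit false

namespace Pool.Agent.Results.MP_b4b3cb_nt.OddOrderCriterion

open Filter Topology Asymptotics NumberField IsDedekindDomain Pool.Agent.Q45.ML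

variable {K : Type} [Field K] [NumberField K] {n : ℕ}

/-- the term at `(v, k)`, `k = z.2 + 1`: `(∑_j (α v j)^k / k) e^{iγ k log q_v/T} / Γ(1 + k log q_v/T)` -/
noncomputable def term (α : HeightOneSpectrum (𝓞 K) → Fin n → ℂ) (γ T : ℝ)
    (z : HeightOneSpectrum (𝓞 K) × ℕ) : ℂ :=
  (∑ j, α z.1 j ^ (z.2 + 1)) / (z.2 + 1) *
    (Complex.exp ((γ * ((z.2 + 1) * Real.log (Ideal.absNorm z.1.asIdeal : ℝ) / T) : ℝ) * Complex.I) /
      (Real.Gamma (1 + (z.2 + 1) * Real.log (Ideal.absNorm z.1.asIdeal : ℝ) / T) : ℂ))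

/-- the smoothed sum -/
noncomputable def S (α : HeightOneSpectrum (𝓞 K) → Fin n → ℂ) (γ T : ℝ) : ℂ := ∑' z, term α γ T z

/-- the odd integers, as real numbers -/
def odds : Set ℝ := {x | ∃ j : ℤ, x = 1 + 2 * j}

/-- the even integers, as real numbers -/
def evens : Set ℝ := {x | ∃ j : ℤ, x = 2 * j}

theorem term_eq (α : HeightOneSpectrum (𝓞 K) → Fin n → ℂ) (γ T : ℝ)
    (z : HeightOneSpectrum (𝓞 K) × ℕ) :
    term α γ T z = sterm (fun v : HeightOneSpectrum (𝓞 K) => nrm v) α 0 γ T z := by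
  unfold term sterm nrm
  simp

/-- the sign of the functional equation and the order -/
theorem sign_order {L A ε : ℂ → ℂ} {m : ℕ} (hL : AnalyticAt ℂ L 0) (hm : analyticOrderAt L 0 = m)
    (hA : AnalyticAt ℂ A 0) (hA0 : A 0 ≠ 0) (hε : ContinuousAt ε 0)
    (hfe : ∀ᶠ s in 𝓝 (0 : ℂ), A s * L s = ε s * (A (-s) * L (-s))) : ε 0 = (-1) ^ m := by
  obtain ⟨g, hg, hg0, hLg⟩ := (hL.analyticOrderAt_eq_natCast).1 hm
  have hneg : Tendsto (fun s : ℂ => -s) (𝓝 0) (𝓝 0) := by
    have := (continuous_neg (G := ℂ)).tendsto 0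
    simpa using this
  have hLg' : ∀ᶠ s in 𝓝 (0 : ℂ), L (-s) = (-s - 0) ^ m • g (-s) := hneg.eventually hLg
  have h1 : ∀ᶠ s in 𝓝[≠] (0 : ℂ), A s * g s = ε s * (-1) ^ m * (A (-s) * g (-s)) := by
    filter_upwards [(hfe.and (hLg.and hLg')).filter_mono nhdsWithin_le_nhds, self_mem_nhdsWithin]
      with s hs hs0
    obtain ⟨h2, h3, h4⟩ := hs
    have hs0' : s ≠ 0 := hs0
    rw [h3, h4, sub_zero, sub_zero, smul_eq_mul, smul_eq_mul, neg_pow] at h2
    have h5 : s ^ m ≠ 0 := pow_ne_zero _ hs0'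
    have h6 : s ^ m * (A s * g s) = s ^ m * (ε s * (-1) ^ m * (A (-s) * g (-s))) := by
      linear_combination h2
    exact mul_left_cancel₀ h5 h6
  have hc1 : Tendsto (fun s => A s * g s) (𝓝[≠] (0 : ℂ)) (𝓝 (A 0 * g 0)) :=
    (hA.continuousAt.mul hg.continuousAt).tendsto.mono_left nhdsWithin_le_nhds
  have hc2 : Tendsto (fun s => ε s * (-1) ^ m * (A (-s) * g (-s))) (𝓝[≠] (0 : ℂ))
      (𝓝 (ε 0 * (-1) ^ m * (A 0 * g 0))) := by
    have hA' : Tendsto (fun s => A (-s)) (𝓝 0) (𝓝 (A 0)) := hA.continuousAt.tendsto.comp hneg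
    have hg' : Tendsto (fun s => g (-s)) (𝓝 0) (𝓝 (g 0)) := hg.continuousAt.tendsto.comp hneg
    exact ((hε.tendsto.mul_const _).mul (hA'.mul hg')).mono_left nhdsWithin_le_nhds
  have h2 := tendsto_nhds_unique (hc1.congr' h1) hc2
  have h3 : A 0 * g 0 ≠ 0 := mul_ne_zero hA0 hg0
  have h4 : ε 0 * (-1) ^ m = 1 := by
    have : (ε 0 * (-1) ^ m) * (A 0 * g 0) = 1 * (A 0 * g 0) := by rw [one_mul]; exact h2.symm
    exact mul_right_cancel₀ h3 this
  have h5 : ((-1 : ℂ)) ^ m * (-1) ^ m = 1 := by rw [← mul_pow]; simp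
  calc ε 0 = ε 0 * ((-1) ^ m * (-1) ^ m) := by rw [h5, mul_one]
    _ = (-1) ^ m := by rw [← mul_assoc, h4, one_mul]

theorem result (α : HeightOneSpectrum (𝓞 K) → Fin n → ℂ)
    (hα : ∀ v j, ‖α v j‖ ≤ (Ideal.absNorm v.asIdeal : ℝ) ^ (-(1 / 2) : ℝ))
    (L : ℂ → ℂ) (hent : Differentiable ℂ L)
    (hL : ∀ s : ℂ, 1 / 2 < s.re → HasProd (fun v : HeightOneSpectrum (𝓞 K) =>
      ∏ j, (1 - α v j * (Ideal.absNorm v.asIdeal : ℂ) ^ (-s))⁻¹) (L s))
    (A ε : ℂ → ℂ) (hA : AnalyticAt ℂ A 0) (hA0 : A 0 ≠ 0) (hε : ContinuousAt ε 0)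
    (hfe : ∀ᶠ s in 𝓝 (0 : ℂ), A s * L s = ε s * (A (-s) * L (-s)))
    {γ : ℝ} (hγ : Real.pi / 2 < γ) :
    (∀ T : ℝ, 0 < T → Summable fun z => ‖term α γ T z‖) ∧
    List.TFAE [ε 0 = -1,
      Tendsto (fun T : ℝ => Metric.infDist (-(S α γ T).re / Real.log T) odds) atTop (𝓝 0),
      ∃ t : ℕ → ℝ, Tendsto t atTop atTop ∧
        Tendsto (fun i => Metric.infDist (-(S α γ (t i)).re / Real.log (t i)) odds) atTop (𝓝 0)] ∧
    List.TFAE [ε 0 = 1,
      Tendsto (fun T : ℝ => Metric.infDist (-(S α γ T).re / Real.log T) evens) atTop (𝓝 0),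
      ∃ t : ℕ → ℝ, Tendsto t atTop atTop ∧
        Tendsto (fun i => Metric.infDist (-(S α γ (t i)).re / Real.log (t i)) evens) atTop (𝓝 0)] := by
  have hE : Eul n (fun v : HeightOneSpectrum (𝓞 K) => nrm v) α (-(1 / 2)) 1 :=
    ⟨zero_le_one, two_le_nrm, fun _ hσ => nrm_summable hσ, hα⟩
  have hS : ∀ T, smooth (fun v : HeightOneSpectrum (𝓞 K) => nrm v) α 0 γ T = S α γ T := by
    intro T
    unfold smooth S
    simp only [term_eq]
  obtain ⟨m', r, h1, h2, h3⟩ := hE.lawC (F := L) (s₀ := 0) (by norm_num)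
    (fun x hx hx1 => (hent.analyticAt _).meromorphicAt)
    (fun s hs => hL s (by linarith)) hγ
  simp only [hS] at h3
  rw [Complex.ofReal_zero] at h1 h2
  obtain ⟨m, rfl, hm⟩ := ord_nat (hent.analyticAt 0) h1
  have hsign := sign_order (hent.analyticAt 0) hm hA hA0 hε hfe
  refine ⟨fun T hT => ?_, ?_, ?_⟩
  · simp only [term_eq]
    exact hE.sterm_summable 0 γ hT
  · have h4 := order_mod h3 (M := 2) (by norm_num) 1
    have e1 : (((2 : ℕ) : ℤ) ∣ (m : ℤ) - 1) ↔ ε 0 = -1 := by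
      rw [hsign]
      rcases Nat.even_or_odd m with h | h
      · rw [h.neg_one_pow]
        constructor
        · intro h5; exfalso; obtain ⟨a, ha⟩ := h; omega
        · intro h5; norm_num at h5
      · rw [h.neg_one_pow]
        obtain ⟨a, ha⟩ := h
        simp only [iff_true]
        omega
    have e2 : resClass 2 1 = odds := by
      ext x
      simp [resClass, odds]
    rw [e1, e2] at h4
    exact h4
  · have h4 := order_mod h3 (M := 2) (by norm_num) 0
    have e1 : (((2 : ℕ) : ℤ) ∣ (m : ℤ) - 0) ↔ ε 0 = 1 := by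
      rw [hsign]
      rcases Nat.even_or_odd m with h | h
      · rw [h.neg_one_pow]
        obtain ⟨a, ha⟩ := h
        simp only [iff_true]
        omega
      · rw [h.neg_one_pow]
        constructor
        · intro h5; exfalso; obtain ⟨a, ha⟩ := h; omega
        · intro h5; norm_num at h5
    have e2 : resClass 2 0 = evens := by
      ext x
      simp [resClass, evens]
    rw [e1, e2] at h4
    exact h4

end Pool.Agent.Results.MP_b4b3cb_nt.OddOrderCriterion
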