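import Mathlib
import Pool.Agent.Q190.RV.Sign

/-!
# The sign of the functional equation and ratios of the Euler product over the prime powers

`π` is a regular algebraic cuspidal automorphic representation of `GL_n` over an imaginary quadratic field `K` with
`π^∨ ≅ π^c |·|^{-1}` as in the problem, `S` a finite set of finite places containing those where `π` is ramified, and
`α_{v,j}`, `1 ≤ j ≤ n`, `v ∉ S`, the Satake parameters of the unitary twist `π |·|^{-1/2}`, of absolute value `1` (Shin,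
Clozel, Caraiani; Chenevier-Harris). Then `F(s) = L^S(s - 1/2, π) = ∏_{v ∉ S} ∏_j (1 - α_{v,j} q_v^{-s})⁻¹` (`Re s > 1`) is
entire and of polynomial growth in vertical strips, and `A(s) F(1/2 + s) = ε(s) A(-s) F(1/2 - s)`, where `A` is the
product of the archimedean factor and the Euler factors at `S` (continuous and not zero at `s = 0`) and
`ε(s) = ε(s, π)`, so `ε(0) = ε(π)` is the sign in the sign conjecture. Let `m = ord_{s=1/2} F = ord_{s=0} L(s, π)` and

`P*(y) = exp (- ∑_{v ∉ S, q_v^k ≤ y} Re (∑_j α_{v,j}^k) / (k q_v^{k/2}))`,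

the product over the prime powers, computed from the traces of powers of Frobenius elements. Nothing is supposed on zeros.

1. (ONE exponent.) Let `P*(y^l) ≤ Q P*(y)` for all large `y`, for one `l > 1`. Then `F` has no zeros with `Re s > 1/2`, and
   `l^m ≤ Q`. If `Q < l`, then `L(0, π) ≠ 0` and `ε(π) = 1`. If `Q < l²`, then `m = 1` when `ε(π) = -1`, and `m = 0` when
   `ε(π) = 1`. If also `q P*(y) ≤ P*(y^l)`, `q > 0`, then `q ≤ l^m`.
2. If `ε(π) = -1`, then for every `l > 1` and `Q < l` there are arbitrarily large `y` with `P*(y^l) > Q P*(y)`.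
3. If `P*(y^l) / P*(y)` converges to `ρ` for one `l > 1`, then `F` has no zeros with `Re s > 1/2`, `ρ = l^m`, and
   `ε(π) = (-1)^r` for the integer `r` with `ρ = l^r`. So the hypothesis `ε(π) = -1` of the sign conjecture is the statement
   that `ρ` is one of `l, l³, l⁵, …`.
4. `P*(y) / (log y)^κ` converges to a positive number for some real `κ` if and only if `P*(y^l) / P*(y)` converges for all `l`
   in a set of positive outer measure in `(1, ∞)`; then `κ = m`, `ε(π) = (-1)^κ`, and the limit is `e^(γ m) / |a|` for the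
   leading coefficient `a` of `F` at `1/2`.
-/

set_option autoImplicit false

namespace Pool.Agent.Results.MP_b4b3cb_nt.SignRatios

open Filter Topology Set Complex NumberField IsDedekindDomain MeasureTheory

variable {K : Type} [Field K] [NumberField K] {n : ℕ}

/-- `q_v` -/
noncomputable def norm (v : HeightOneSpectrum (𝓞 K)) : ℕ := Ideal.absNorm v.asIdeal

/-- `α` are the Satake parameters, of absolute value `1`, and `F` is holomorphic, of polynomial growth in a half plane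
`Re s > 1/2 - η`, and equal to the Euler product over the places outside of `S` for `Re s > 1`. -/
structure IsL (S : Finset (HeightOneSpectrum (𝓞 K))) (α : HeightOneSpectrum (𝓞 K) → Fin n → ℂ) (F : ℂ → ℂ) :
    Prop where
  abs : ∀ v, v ∉ S → ∀ j, ‖α v j‖ = 1
  holo : ∃ (η C : ℝ) (k : ℕ), 0 < η ∧ ∀ s : ℂ, 1 / 2 - η < s.re → DifferentiableAt ℂ F s ∧ ‖F s‖ ≤ C * (1 + ‖s‖) ^ k
  euler : ∀ s : ℂ, 1 < s.re → HasProd (fun v : {v : HeightOneSpectrum (𝓞 K) // v ∉ S} =>
    (∏ j, (1 - α v.1 j * (norm v.1 : ℂ) ^ (-s)))⁻¹) (F s)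

/-- The functional equation `A(s) F(1/2 + s) = ε(s) A(-s) F(1/2 - s)` near `s = 0`, with `A`, `ε` continuous at `0` and
`A(0) ≠ 0`. -/
structure FunctionalEquation (F A ε : ℂ → ℂ) : Prop where
  contA : ContinuousAt A 0
  ne : A 0 ≠ 0
  contE : ContinuousAt ε 0
  eq : ∀ᶠ s in 𝓝 (0 : ℂ), A s * F (1 / 2 + s) = ε s * (A (-s) * F (1 / 2 - s))

/-- `P*(y) = exp (- ∑_{v ∉ S, q_v^k ≤ y} Re (∑_j α_{v,j}^k) / (k q_v^{k/2}))`, the (finite) sum over the pairs `(v, k)`, `v` a
place outside of `S`, `k = x.2 + 1 ≥ 1`, with `q_v^k ≤ y` -/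
noncomputable def productStar (S : Finset (HeightOneSpectrum (𝓞 K))) (α : HeightOneSpectrum (𝓞 K) → Fin n → ℂ)
    (y : ℝ) : ℝ :=
  Real.exp (-∑ᶠ (x : {v : HeightOneSpectrum (𝓞 K) // v ∉ S} × ℕ) (_ : (norm x.1.1 : ℝ) ^ (x.2 + 1) ≤ y),
    (∑ j, α x.1.1 j ^ (x.2 + 1)).re / (((x.2 : ℝ) + 1) * ((norm x.1.1 : ℝ) ^ (1 / 2 : ℝ)) ^ (x.2 + 1)))

/-- the Riemann hypothesis: `F` has no zeros with `Re s > 1/2` -/
def NoZeros (F : ℂ → ℂ) : Prop := ∀ s : ℂ, 1 / 2 < s.re → F s ≠ 0

/-- `P(y^l) ≤ Q P(y)` for all large `y` -/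
def Upper (P : ℝ → ℝ) (l Q : ℝ) : Prop := ∀ᶠ y : ℝ in atTop, P (y ^ l) ≤ Q * P y

/-- `q P(y) ≤ P(y^l)` for all large `y` -/
def Lower (P : ℝ → ℝ) (l q : ℝ) : Prop := ∀ᶠ y : ℝ in atTop, q * P y ≤ P (y ^ l)

/-- There is a set `Λ ⊆ (1, ∞)` of positive (outer) Lebesgue measure such that for every `l ∈ Λ` the ratio
`P(y^l) / P(y)` converges as `y → ∞`. -/
def Conv (P : ℝ → ℝ) : Prop :=
  ∃ Λ : Set ℝ, Λ ⊆ Ioi 1 ∧ volume Λ ≠ 0 ∧ ∀ l ∈ Λ, ∃ r : ℝ, Tendsto (fun y : ℝ => P (y ^ l) / P y) atTop (𝓝 r)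

theorem half_c : (1 / 2 : ℝ) = (((0 : ℕ) : ℝ) + 1) / 2 := by norm_num

/-- **The sign of the functional equation and ratios of the Euler product over the prime powers.** -/
theorem result (K : Type) [Field K] [NumberField K] (n : ℕ) (S : Finset (HeightOneSpectrum (𝓞 K)))
    (α : HeightOneSpectrum (𝓞 K) → Fin n → ℂ) (F A ε : ℂ → ℂ) (hF : IsL S α F) (hfe : FunctionalEquation F A ε) :
    ∃ m : ℕ, analyticOrderAt F (1 / 2) = m ∧
      -- (1) one exponent
      (∀ l Q : ℝ, 1 < l → Upper (productStar S α) l Q → NoZeros F ∧ l ^ m ≤ Q ∧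
        (Q < l → F (1 / 2) ≠ 0 ∧ ε 0 = 1) ∧
        (Q < l ^ 2 → (ε 0 = -1 → m = 1) ∧ (ε 0 = 1 → m = 0)) ∧
        ∀ q : ℝ, 0 < q → Lower (productStar S α) l q → q ≤ l ^ m) ∧
      -- (2) sign -1
      (ε 0 = -1 → ∀ l Q : ℝ, 1 < l → Q < l → ∃ᶠ y : ℝ in atTop, Q * productStar S α y < productStar S α (y ^ l)) ∧
      -- (3) the limit for one exponent
      (∀ l ρ : ℝ, 1 < l → Tendsto (fun y : ℝ => productStar S α (y ^ l) / productStar S α y) atTop (𝓝 ρ) →
        NoZeros F ∧ ρ = l ^ m ∧ ∀ r : ℕ, ρ = l ^ r → ε 0 = (-1) ^ r) ∧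
      -- (4) the asymptotics
      ((∃ κ b : ℝ, 0 < b ∧ Tendsto (fun y : ℝ => productStar S α y / Real.log y ^ κ) atTop (𝓝 b)) ↔
        Conv (productStar S α)) ∧
      ∀ κ b : ℝ, 0 < b → Tendsto (fun y : ℝ => productStar S α y / Real.log y ^ κ) atTop (𝓝 b) →
        κ = m ∧ ε 0 = (-1) ^ m ∧ ∃ a : ℂ, a ≠ 0 ∧ Tendsto (fun s : ℂ => F s / (s - 1 / 2) ^ m) (𝓝[≠] (1 / 2)) (𝓝 a) ∧
          b = Real.exp (Real.eulerMascheroniConstant * m) / ‖a‖ := by
  have hb : Pool.Agent.Q18.P.Bdd 0 S α := by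
    intro v hv j
    rw [hF.abs v hv j]
    simp
  have hH : Pool.Agent.Q190.RV.Holo (1 / 2) S α F :=
    ⟨hF.holo, fun s hs => (hF.euler s (by linarith)).congr_fun fun v => rfl⟩
  obtain ⟨m, hm⟩ := hH.order_finite' half_c hb
  have hcast : (((1 / 2 : ℝ)) : ℂ) = 1 / 2 := by push_cast; rfl
  have hm' : analyticOrderAt F (1 / 2) = m := by rw [← hcast]; exact hm
  have han : AnalyticAt ℂ F (1 / 2) := by
    have := hH.analytic.1
    rwa [hcast] at this
  have hv : F (1 / 2) ≠ 0 ↔ m = 0 := by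
    have h1 := han.analyticOrderAt_eq_zero
    rw [hm'] at h1
    rw [← h1]
    exact Nat.cast_eq_zero
  have hsign : ε 0 = (-1) ^ m :=
    Pool.Agent.Q190.RV.FunctionalEquation.sign (A := A) ⟨hfe.contA, hfe.ne, hfe.contE, hfe.eq⟩ han hm'
  have heq : productStar S α = Pool.Agent.Q18.P.productStar (1 / 2) S α := rfl
  have R := Pool.Agent.Q190.RV.ratios_star half_c hb hH hm
  obtain ⟨a, ha0, ha⟩ := hH.leading hm
  have tl := Pool.Agent.Q190.RV.s_law half_c hb hH hm ha ha0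
  have odd : ε 0 = -1 → m % 2 = 1 := by
    intro h
    have h' : (-1 : ℂ) ^ m = (-1) ^ 1 := by
      rw [← hsign, h, pow_one]
    exact Pool.Agent.Q190.RV.neg_one_pow_eq.1 h'
  have even : ε 0 = 1 → m % 2 = 0 := by
    intro h
    have h' : (-1 : ℂ) ^ m = (-1) ^ 0 := by
      rw [← hsign, h, pow_zero]
    exact Pool.Agent.Q190.RV.neg_one_pow_eq.1 h'
  rw [heq]
  refine ⟨m, hm', fun l Q hl hQ => ?_, fun h l Q hl hQ => ?_, fun l ρ hl hρ => ?_, tl.out 1 3, fun κ b hb0 h => ?_⟩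
  · obtain ⟨h1, h2⟩ := R.upper l Q hl hQ
    refine ⟨h1, h2, fun h3 => ?_, fun h3 => ?_, fun q hq0 hq => R.lower h1 l q hl hq0 hq⟩
    · have h4 : m < 1 := R.lt hl hQ (by rwa [pow_one])
      have h5 : m = 0 := by omega
      refine ⟨hv.2 h5, ?_⟩
      rw [hsign, h5, pow_zero]
    · have h4 : m < 2 := R.lt hl hQ h3
      refine ⟨fun h => ?_, fun h => ?_⟩
      · have := odd h
        omega
      · have := even h
        omega
  · refine R.freq hl (lt_of_lt_of_le hQ ?_)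
    have := odd h
    calc l = l ^ 1 := (pow_one l).symm
      _ ≤ l ^ m := pow_le_pow_right₀ hl.le (by omega)
  · obtain ⟨h1, h2⟩ := R.limit l ρ hl hρ
    refine ⟨h1, h2, fun r hr => ?_⟩
    rw [h2] at hr
    have h4 : m = r := pow_right_injective₀ (by linarith) hl.ne' hr
    rw [← h4]
    exact hsign
  · obtain ⟨h1, h2⟩ := R.kappa hb0 h
    refine ⟨h2, hsign, a, ha0, ?_, ?_⟩
    · rw [hcast] at ha
      exact ha
    · have h30 := tl.out 1 0
      have h3 := h30.1 ⟨κ, b, hb0, h⟩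
      have h4 := h3.mul_const (Real.exp Real.eulerMascheroniConstant ^ m)
      have h5 : Tendsto (fun y : ℝ => Pool.Agent.Q18.P.productStar (1 / 2) S α y / Real.log y ^ κ) atTop
          (𝓝 (1 / ‖a‖ * Real.exp Real.eulerMascheroniConstant ^ m)) := by
        refine h4.congr' ?_
        filter_upwards [eventually_gt_atTop 1] with y hy
        have hlog := Real.log_pos hy
        rw [h2, Real.rpow_natCast, mul_pow]
        field_simp
      rw [tendsto_nhds_unique h h5, mul_comm Real.eulerMascheroniConstant, Real.exp_nat_mul]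
      ring

end Pool.Agent.Results.MP_b4b3cb_nt.SignRatios
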