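import Mathlib
import Pool.Agent.Q18.P.Par

/-!
# The sign conjecture: the number of violations in a finite family, from one product on one sequence of windows

Let `π_1, …, π_m` be regular algebraic cuspidal representations of `GL_{n_i}` over the imaginary quadratic field `K` as in the
problem (`π_i^∨ ≅ π_i^c |·|^{-1}`), all with `ε(π_i) = -1`. `α_{i,v,j}` are the Satake parameters of `π_i |·|^{-1/2}` at the
places `v ∉ S`; they have the absolute value `1` (Ramanujan: Shin, Caraiani). `F_i(s) = L^S(s - 1/2, π_i)`, with the centre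
`s = 1/2`; `d_i(ι)` is the dimension of `H¹_f(K, ρ_{π_i,ι})` for the pairs `ι` of a prime and an isomorphism. `Known` lists
what is used: `F_i` is holomorphic of polynomial growth to the right of some `Re s = 1/2 - η`, has the Euler product, the
central order is odd (functional equation), and, if it is `1`, then `H¹_f ≠ 0` (Gross-Zagier type theorems; known for
example for the base changes of newforms of weight two). ONE product for the family:

`P(y) = ∏_i ∏_{v ∉ S, q_v ≤ y} |∏_j (1 - α_{i,v,j} q_v^{-1/2})|`.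

Fix `0 < δ < 1`; the windows are `[Y^(1-δ), Y]`; `U(κ, B)` at `Y`: `∫ max (log P - κ log log y, 0) dy/y ≤ B log Y`.

1. If `U(κ, B)` holds for arbitrarily large `Y` (one sequence of windows, as sparse as we like), then all `L(s, π_i)` satisfy
   the Riemann hypothesis, and the sign conjecture fails (for some `ι`) for at most `(κ - m)/2` of the `π_i`; if `κ < m + 2`,
   then all orders are `1`, and the sign conjecture holds for all of them and all `ι`.
2. If the sign conjecture fails for at least `k` of the `π_i`, then `U(κ, B)` fails for ALL large `Y`, for every `B` and every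
   `κ < m + 2k`.
3. For any one `κ` in `[m, m + 2)`: the Riemann hypothesis and all orders `1` ⟺ `U(κ, B)` for some `B` and arbitrarily large
   `Y` ⟺ for some `B` and all large `Y`.
4. For any real `κ`: the Riemann hypothesis for all `π_i` and `∑ ord ≤ κ` ⟺ the same two.
-/

set_option autoImplicit false

namespace Pool.Agent.Results.MP_b4b3cb_nt.SignViolations

open Filter Topology Set Complex NumberField IsDedekindDomain MeasureTheory
open Pool.Agent.Q18.P (norm Holo NoZeros Order MeanBound excess upTo)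

variable {K : Type} [Field K] [NumberField K]

/-- What is used about `π`: `α` are the Satake parameters (unitary normalisation), `F` the incomplete `L`-function with the
centre `1/2`, `d ι` the dimension of `H¹_f`. -/
structure Known (S : Finset (HeightOneSpectrum (𝓞 K))) {n : ℕ} (α : HeightOneSpectrum (𝓞 K) → Fin n → ℂ) (F : ℂ → ℂ)
    {I : Type} (d : I → ℕ) : Prop where
  abs : ∀ v, v ∉ S → ∀ j, ‖α v j‖ = 1
  /-- holomorphic of polynomial growth in a half plane `Re s > 1/2 - η` -/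
  holo : Holo (1 / 2) F
  euler : ∀ s : ℂ, 1 < s.re →
    HasProd (fun v : {v : HeightOneSpectrum (𝓞 K) // v ∉ S} => (∏ j, (1 - α v.1 j * (norm v.1 : ℂ) ^ (-s)))⁻¹) (F s)
  /-- the functional equation with the sign `-1` -/
  odd : ∀ e : ℤ, Order (1 / 2) F e → 2 ∣ e - 1
  /-- Gross-Zagier type theorem: order one implies a nonzero Selmer class -/
  one : Order (1 / 2) F 1 → ∀ ι, 0 < d ι

/-- `P(y) = ∏_i ∏_{v ∉ S, q_v ≤ y} |∏_j (1 - α_{i,v,j} q_v^{-1/2})|` -/
noncomputable def product (S : Finset (HeightOneSpectrum (𝓞 K))) {m : ℕ} {n : Fin m → ℕ}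
    (α : (i : Fin m) → HeightOneSpectrum (𝓞 K) → Fin (n i) → ℂ) (y : ℝ) : ℝ :=
  ∏ i, ∏ᶠ v ∈ upTo S y, ‖∏ j, (1 - α i v j * (norm v : ℂ) ^ (-(((1 / 2 : ℝ)) : ℂ)))‖

/-- **The number of violations of the sign conjecture in a finite family.** -/
theorem result (K : Type) [Field K] [NumberField K] (m : ℕ) (n : Fin m → ℕ) (S : Finset (HeightOneSpectrum (𝓞 K)))
    (α : (i : Fin m) → HeightOneSpectrum (𝓞 K) → Fin (n i) → ℂ) (F : Fin m → ℂ → ℂ) (I : Type) (d : Fin m → I → ℕ)
    (h : ∀ i, Known S (α i) (F i) (d i)) (δ : ℝ) (h0 : 0 < δ) (h1 : δ < 1) :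
    -- (1) one sequence of windows
    (∀ κ B : ℝ, (∃ᶠ Y : ℝ in atTop, MeanBound δ (excess (product S α) κ) B Y) →
      (∀ i, NoZeros (1 / 2) (F i)) ∧ (Nat.card {i // ∃ ι, d i ι = 0} : ℝ) ≤ (κ - m) / 2 ∧
      (κ < m + 2 → ∀ i, Order (1 / 2) (F i) 1 ∧ ∀ ι, d i ι ≠ 0)) ∧
    -- (2) in every window
    (∀ k : ℕ, k ≤ Nat.card {i // ∃ ι, d i ι = 0} → ∀ κ B : ℝ, κ < m + 2 * k →
      ∀ᶠ Y : ℝ in atTop, ¬ MeanBound δ (excess (product S α) κ) B Y) ∧
    -- (3) all orders are one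
    (∀ κ : ℝ, m ≤ κ → κ < m + 2 → List.TFAE [
      (∀ i, NoZeros (1 / 2) (F i)) ∧ ∀ i, Order (1 / 2) (F i) 1,
      ∃ B : ℝ, ∃ᶠ Y : ℝ in atTop, MeanBound δ (excess (product S α) κ) B Y,
      ∃ B : ℝ, ∀ᶠ Y : ℝ in atTop, MeanBound δ (excess (product S α) κ) B Y]) ∧
    -- (4) the sum of the orders
    (∀ κ : ℝ, List.TFAE [
      (∀ i, NoZeros (1 / 2) (F i)) ∧ ∃ e : Fin m → ℤ, (∀ i, Order (1 / 2) (F i) (e i)) ∧ ((∑ i, e i : ℤ) : ℝ) ≤ κ,
      ∃ B : ℝ, ∃ᶠ Y : ℝ in atTop, MeanBound δ (excess (product S α) κ) B Y,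
      ∃ B : ℝ, ∀ᶠ Y : ℝ in atTop, MeanBound δ (excess (product S α) κ) B Y]) := by
  have hc : (1 / 2 : ℝ) = (((0 : ℕ) : ℝ) + 1) / 2 := by norm_num
  have hb : ∀ i, Pool.Agent.Q18.P.Bdd 0 S (α i) := by
    intro i v hv j
    rw [(h i).abs v hv j]
    simp
  have hE : ∀ i, Pool.Agent.Q18.P.Euler (1 / 2) S (α i) (F i) := fun i s hs => (h i).euler s (by linarith)
  obtain ⟨t1, t2, t3⟩ := Pool.Agent.Q18.P.signs hc hb (fun i => (h i).holo) hE (fun _ => 1) (fun _ => Or.inr rfl)
    (fun i => (h i).odd) (fun i => ∀ ι, 0 < d i ι) (fun i hi => (h i).one hi) h0 h1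
  have e1 : (fun y => ∏ i, Pool.Agent.Q18.P.product (1 / 2) S (α i) y) = product S α := rfl
  have e2 : ((∑ _i : Fin m, (1 : ℤ) : ℤ) : ℝ) = m := by simp
  rw [e1] at t1 t2 t3
  rw [e2] at t1 t2
  have e3 : Nat.card {i // ¬ ∀ ι, 0 < d i ι} = Nat.card {i // ∃ ι, d i ι = 0} := by
    refine Nat.card_congr (Equiv.subtypeEquivRight fun i => ?_)
    push Not
    exact exists_congr fun ι => by omega
  rw [e3] at t1
  have t4 : ∀ κ B : ℝ, (∃ᶠ Y : ℝ in atTop, MeanBound δ (excess (product S α) κ) B Y) →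
      (∀ i, NoZeros (1 / 2) (F i)) ∧ (Nat.card {i // ∃ ι, d i ι = 0} : ℝ) ≤ (κ - m) / 2 ∧
      (κ < m + 2 → ∀ i, Order (1 / 2) (F i) 1 ∧ ∀ ι, d i ι ≠ 0) := by
    intro κ B hB
    obtain ⟨a1, a2, a3⟩ := t1 κ B hB
    exact ⟨a1, a2, fun hκ i => ⟨a3 hκ i, fun ι => ((h i).one (a3 hκ i) ι).ne'⟩⟩
  refine ⟨t4, fun k hk κ B hκ => ?_, t2, t3⟩
  by_contra hne
  rw [Filter.not_eventually] at hne
  have hB : ∃ᶠ Y : ℝ in atTop, MeanBound δ (excess (product S α) κ) B Y := hne.mono fun Y hY => not_not.1 hY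
  have h2 := (t4 κ B hB).2.1
  have h3 : (k : ℝ) ≤ Nat.card {i // ∃ ι, d i ι = 0} := by exact_mod_cast hk
  linarith

end Pool.Agent.Results.MP_b4b3cb_nt.SignViolations
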